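import Mathlib

set_option autoImplicit false

namespace Pool.Agent.Results.MP_3f4d1a_nt.ExponentThreeModFour

open Finset

/-- The sum of the unitary divisors of `n`. -/
def usigma (n : ℕ) : ℕ := ∑ d ∈ n.divisors, if Nat.Coprime d (n / d) then d else 0

lemma usigma_mul (m n : ℕ) (h : m.Coprime n) : usigma (m * n) = usigma m * usigma n := by
  unfold usigma
  rw [Finset.sum_mul_sum, ← Finset.sum_product']
  have e : (m * n).divisors = (m.divisors ×ˢ n.divisors).image (fun p => p.1 * p.2) := by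
    rw [Nat.divisors_mul]; rfl
  rw [e, Finset.sum_image h.mul_injOn_divisors]
  refine Finset.sum_congr rfl fun x hx => ?_
  obtain ⟨a, b⟩ := x
  rw [Finset.mem_product, Nat.mem_divisors, Nat.mem_divisors] at hx
  obtain ⟨⟨⟨a', rfl⟩, h1⟩, ⟨⟨b', rfl⟩, h2⟩⟩ := hx
  dsimp only at *
  have ha : 0 < a := Nat.pos_of_ne_zero (left_ne_zero_of_mul h1)
  have hb : 0 < b := Nat.pos_of_ne_zero (left_ne_zero_of_mul h2)
  have e1 : a * a' * (b * b') / (a * b) = a' * b' := by
    rw [show a * a' * (b * b') = (a * b) * (a' * b') by ring]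
    exact Nat.mul_div_cancel_left _ (Nat.mul_pos ha hb)
  rw [e1, Nat.mul_div_cancel_left _ ha, Nat.mul_div_cancel_left _ hb]
  simp only [Nat.coprime_mul_iff_left, Nat.coprime_mul_iff_right] at h ⊢
  obtain ⟨⟨-, h3⟩, h4, -⟩ := h
  by_cases c1 : a.Coprime a'
  · by_cases c2 : b.Coprime b'
    · rw [if_pos ⟨⟨c1, h3.symm⟩, h4, c2⟩, if_pos c1, if_pos c2]
    · rw [if_neg (fun c => c2 c.2.2), if_neg c2, mul_zero]
  · rw [if_neg (fun c => c1 c.1.1), if_neg c1, zero_mul]

lemma usigma_pow (p e : ℕ) (hp : p.Prime) (he : 0 < e) : usigma (p ^ e) = p ^ e + 1 := by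
  unfold usigma
  rw [Nat.sum_divisors_prime_pow hp]
  obtain ⟨k, rfl⟩ : ∃ k, e = k + 1 := ⟨e - 1, by omega⟩
  rw [Finset.sum_range_succ, Finset.sum_range_succ', Finset.sum_eq_zero]
  · simp [Nat.div_self (pow_pos hp.pos _), add_comm]
  · intro j hj
    rw [Finset.mem_range] at hj
    rw [if_neg]
    rw [Nat.pow_div (by omega) hp.pos, Nat.coprime_pow_left_iff (by omega),
      Nat.coprime_pow_right_iff (by omega), Nat.coprime_self]
    exact hp.ne_one

lemma geom (p t : ℕ) : ∑ j ∈ range (2 * t), p ^ j = (p + 1) * ∑ i ∈ range t, (p ^ 2) ^ i := by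
  induction t with
  | zero => simp
  | succ t ih =>
    rw [show 2 * (t + 1) = 2 * t + 1 + 1 by ring, Finset.sum_range_succ, Finset.sum_range_succ,
      ih, Finset.sum_range_succ, ← pow_mul]
    ring

lemma par (q t : ℕ) (hq : q % 2 = 1) : (∑ i ∈ range t, q ^ i) % 2 = t % 2 := by
  induction t with
  | zero => simp
  | succ t ih =>
    rw [Finset.sum_range_succ]
    have : q ^ t % 2 = 1 := by rw [Nat.pow_mod, hq]; simp
    omega

lemma key (n : ℕ) : 0 < n → (∀ p : ℕ, p.Prime → p ≠ 2 → n.factorization p % 4 ≠ 3) →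
    ∃ u, u % 2 = 1 ∧ (∑ d ∈ n.divisors, d) ∣ u * usigma n := by
  induction n using Nat.recOnPosPrimePosCoprime with
  | prime_pow p e hp he =>
    intro _ h
    rw [usigma_pow p e hp he, Nat.sum_divisors_prime_pow hp]
    rcases hp.eq_two_or_odd with rfl | ho
    · refine ⟨_, ?_, dvd_mul_right _ _⟩
      rw [Finset.sum_range_succ']
      have : 2 ∣ ∑ j ∈ range e, 2 ^ (j + 1) :=
        Finset.dvd_sum fun j _ => dvd_pow_self 2 (by omega)
      simp only [pow_zero]; omega
    · have h3 := h p hp (by omega)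
      rw [hp.factorization_pow, Finsupp.single_eq_same] at h3
      rcases Nat.even_or_odd' e with ⟨t, rfl | rfl⟩
      · exact ⟨_, by rw [par _ _ ho]; omega, dvd_mul_right _ _⟩
      · refine ⟨∑ i ∈ range (t + 1), (p ^ 2) ^ i, ?_, ?_⟩
        · rw [par _ _ (by rw [Nat.pow_mod, ho])]; omega
        · rw [show 2 * t + 1 + 1 = 2 * (t + 1) by ring, geom, mul_comm]
          apply Nat.mul_dvd_mul_left
          simpa using Odd.nat_add_dvd_pow_add_pow p 1 (n := 2 * t + 1) ⟨t, rfl⟩
  | zero => intro h; omega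
  | one => intro _ _; exact ⟨1, rfl, by simp⟩
  | coprime a b ha hb hab iha ihb =>
    intro _ h
    have hf := Nat.factorization_mul (a := a) (b := b) (by omega) (by omega)
    have z : ∀ p, p.Prime → a.factorization p = 0 ∨ b.factorization p = 0 := fun p hp => by
      by_cases c : p ∣ a
      · right
        exact Nat.factorization_eq_zero_of_not_dvd fun c' =>
          hp.ne_one (Nat.eq_one_of_dvd_coprimes hab c c')
      · left; exact Nat.factorization_eq_zero_of_not_dvd c
    obtain ⟨u, hu, du⟩ := iha (by omega) fun p hp h2 => by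
      have := h p hp h2; rw [hf, Finsupp.add_apply] at this; have := z p hp; omega
    obtain ⟨v, hv, dv⟩ := ihb (by omega) fun p hp h2 => by
      have := h p hp h2; rw [hf, Finsupp.add_apply] at this; have := z p hp; omega
    refine ⟨u * v, by rw [Nat.mul_mod, hu, hv], ?_⟩
    rw [hab.sum_divisors_mul, usigma_mul a b hab,
      show u * v * (usigma a * usigma b) = (u * usigma a) * (v * usigma b) by ring]
    exact mul_dvd_mul du dv

/-- If `σ(n) = 2 σ*(n)`, some odd prime divides `n` to an exponent `≡ 3 (mod 4)`. -/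
theorem result (n : ℕ) (hn : 0 < n) (h : ∑ d ∈ n.divisors, d = 2 * usigma n) :
    ∃ p : ℕ, p.Prime ∧ p ≠ 2 ∧ n.factorization p % 4 = 3 := by
  by_contra c
  push Not at c
  obtain ⟨u, hu, du⟩ := key n hn c
  have hpos : 0 < usigma n := by
    have : 0 < ∑ d ∈ n.divisors, d :=
      Finset.sum_pos (fun d hd => Nat.pos_of_mem_divisors hd) ⟨1, by simp; omega⟩
    omega
  rw [h] at du
  have := Nat.dvd_of_mul_dvd_mul_right hpos du
  omega

end Pool.Agent.Results.MP_3f4d1a_nt.ExponentThreeModFour
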